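import Mathlib
import Pool.Agent.R158.N3.Last

/-!
# Configurations `(n_3)` with at most 14 points have dimension 2 or 3

Every realizable combinatorial configuration `(n_3)` with `n ≤ 14` has dimension `2` or `3`.

Idea of the proof. Suppose that the points of a representation span an affine space of dimension at
least four. Consider the flats spanned by points. If a line through a point outside of a flat `V`
meets `V` in at most one point, so a proper flat misses at least four points. If a three-dimensional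
flat misses exactly four points then all pairs of these points are on lines of the configuration; by
the theorem on the diagonal points of a complete quadrangle, and an analysis of the sections of
tetrahedra, this is impossible. It follows that no three-dimensional flat misses exactly five
points. As `n ≤ 14`, there are triangles, so that there is a plane with at least six points, and
counting the lines which meet this plane leads to a contradiction.
-/

set_option autoImplicit false

namespace Pool.Agent.Results.MP_ac1762_co.DimensionTwoOrThree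

open Module

/-- A combinatorial configuration `(n_3)` with point set `P` and set of lines `L`: there are `n`
points and `n` lines, each line is a set of exactly three points, each point is on exactly three
lines, and two distinct points are on at most one common line. -/
structure IsConfiguration (n : ℕ) {P : Type} [Fintype P] [DecidableEq P]
    (L : Finset (Finset P)) : Prop where
  card_points : Fintype.card P = n
  card_lines : L.card = n
  card_line : ∀ ℓ ∈ L, ℓ.card = 3
  card_pencil : ∀ p : P, (L.filter (p ∈ ·)).card = 3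
  two_points : ∀ p q : P, p ≠ q → ∀ ℓ ∈ L, ∀ m ∈ L, p ∈ ℓ → q ∈ ℓ → p ∈ m → q ∈ m → ℓ = m

/-- A geometric representation in the Euclidean space `ℝ^m`: the points are sent injectively to
points, the lines to pairwise distinct straight lines, and the image of a point is on the image of a
line if and only if the point is on the line. -/
structure IsRepresentation {P : Type} (L : Finset (Finset P)) {m : ℕ}
    (φ : P → EuclideanSpace ℝ (Fin m))
    (ψ : Finset P → AffineSubspace ℝ (EuclideanSpace ℝ (Fin m))) : Prop where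
  injective : Function.Injective φ
  line : ∀ ℓ ∈ L, (ψ ℓ : Set (EuclideanSpace ℝ (Fin m))).Nonempty ∧
    finrank ℝ (ψ ℓ).direction = 1
  distinct : ∀ ℓ ∈ L, ∀ k ∈ L, ψ ℓ = ψ k → ℓ = k
  incidence : ∀ p, ∀ ℓ ∈ L, φ p ∈ ψ ℓ ↔ p ∈ ℓ

/-- The set of the dimensions of the affine hulls of the point sets of the representations, in all
Euclidean spaces. -/
def dimensions {P : Type} (L : Finset (Finset P)) : Set ℕ :=
  {d | ∃ (m : ℕ) (φ : P → EuclideanSpace ℝ (Fin m))
    (ψ : Finset P → AffineSubspace ℝ (EuclideanSpace ℝ (Fin m))),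
    IsRepresentation L φ ψ ∧ finrank ℝ (affineSpan ℝ (Set.range φ)).direction = d}

/-- The configuration is realizable. -/
def Realizable {P : Type} (L : Finset (Finset P)) : Prop :=
  ∃ (m : ℕ) (φ : P → EuclideanSpace ℝ (Fin m))
    (ψ : Finset P → AffineSubspace ℝ (EuclideanSpace ℝ (Fin m))), IsRepresentation L φ ψ

/-- The dimension of the configuration is `d`: the largest dimension of the affine hull of the
points of a representation. -/
def HasDimension {P : Type} (L : Finset (Finset P)) (d : ℕ) : Prop := IsGreatest (dimensions L) d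

section proof

set_option linter.unusedSectionVars false

variable {P : Type} [Fintype P] [DecidableEq P] {L : Finset (Finset P)} {m : ℕ}
  {φ : P → EuclideanSpace ℝ (Fin m)}
  {ψ : Finset P → AffineSubspace ℝ (EuclideanSpace ℝ (Fin m))}

theorem collinear (h : IsRepresentation L φ ψ) {ℓ : Finset P} (hℓ : ℓ ∈ L) {p q r : P}
    (hp : p ∈ ℓ) (hq : q ∈ ℓ) (hr : r ∈ ℓ) (hpq : p ≠ q) :
    ∃ t : ℝ, φ r - φ p = t • (φ q - φ p) := by
  have h1 := (h.line ℓ hℓ).2
  have hp' := (h.incidence p ℓ hℓ).2 hp
  have hq' := (h.incidence q ℓ hℓ).2 hq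
  have hr' := (h.incidence r ℓ hℓ).2 hr
  have h2 : φ q - φ p ∈ (ψ ℓ).direction := AffineSubspace.vsub_mem_direction hq' hp'
  have h3 : φ r - φ p ∈ (ψ ℓ).direction := AffineSubspace.vsub_mem_direction hr' hp'
  have h4 : (⟨φ q - φ p, h2⟩ : (ψ ℓ).direction) ≠ 0 := by
    intro h5
    have h6 : φ q - φ p = 0 := congrArg Subtype.val h5
    exact hpq (h.injective (sub_eq_zero.1 h6)).symm
  obtain ⟨t, ht⟩ := (finrank_eq_one_iff_of_nonzero' _ h4).1 h1 ⟨φ r - φ p, h3⟩
  exact ⟨t, (congrArg Subtype.val ht).symm⟩

theorem on_line (h : IsRepresentation L φ ψ) {ℓ : Finset P} (hℓ : ℓ ∈ L) {p q s : P}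
    (hp : p ∈ ℓ) (hq : q ∈ ℓ) (t : ℝ) (hs : φ s - φ p = t • (φ q - φ p)) : s ∈ ℓ := by
  rw [← h.incidence s ℓ hℓ]
  have h1 := AffineMap.lineMap_mem t ((h.incidence p ℓ hℓ).2 hp) ((h.incidence q ℓ hℓ).2 hq)
  rw [AffineMap.lineMap_apply, vsub_eq_sub, vadd_eq_add, ← hs, sub_add_cancel] at h1
  exact h1

theorem upper {n : ℕ} (hn : n ≤ 14) (hL : IsConfiguration n L) (h : IsRepresentation L φ ψ) :
    finrank ℝ (vectorSpan ℝ (Set.range φ)) ≤ 3 := by
  classical
  let u : P → EuclideanSpace ℝ (Fin m) × ℝ := fun p => (φ p, 1)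
  have hbig : ∃ F : Submodule ℝ (EuclideanSpace ℝ (Fin m) × ℝ), finrank ℝ F ≤ 4 ∧
      ∀ p, u p ∈ F := by
    by_contra hc
    push Not at hc
    refine (Pool.Agent.R158.N3.Sys.false (L := L) (u := u) ?_)
    refine ⟨hL.card_line, hL.card_pencil, fun ℓ hℓ k hk p q hpq h1 h2 h3 h4 =>
      hL.two_points p q hpq ℓ hℓ k hk h1 h2 h3 h4, by rw [hL.card_points]; exact hn,
      by rw [hL.card_lines]; exact hn, ?_, ?_, ?_, hc⟩
    · intro p q hpq hq
      obtain ⟨t, ht⟩ := Submodule.mem_span_singleton.1 hq
      have h1 : t • φ p = φ q := congrArg Prod.fst ht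
      have h2 : t • (1 : ℝ) = 1 := congrArg Prod.snd ht
      rw [smul_eq_mul, mul_one] at h2
      rw [h2, one_smul] at h1
      exact hpq (h.injective h1)
    · intro ℓ hℓ p hp q hq r hr hpq
      obtain ⟨t, ht⟩ := collinear h hℓ hp hq hr hpq
      rw [Submodule.mem_span_pair]
      refine ⟨1 - t, t, ?_⟩
      ext1
      · show (1 - t) • φ p + t • φ q = φ r
        linear_combination (norm := module) -ht
      · show (1 - t) • (1 : ℝ) + t • (1 : ℝ) = 1
        simp
    · intro ℓ hℓ p hp q hq hpq s hs
      obtain ⟨x, y, hxy⟩ := Submodule.mem_span_pair.1 hs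
      have h1 : x • φ p + y • φ q = φ s := congrArg Prod.fst hxy
      have h2 : x • (1 : ℝ) + y • (1 : ℝ) = 1 := congrArg Prod.snd hxy
      rw [smul_eq_mul, smul_eq_mul, mul_one, mul_one] at h2
      refine on_line h hℓ hp hq y ?_
      have h3 : x = 1 - y := by linarith
      rw [← h1, h3]
      module
  obtain ⟨F, hF, hu⟩ := hbig
  by_cases hP : IsEmpty P
  · have : Set.range φ = ∅ := Set.range_eq_empty φ
    rw [this, vectorSpan_empty]
    simp
  · rw [not_isEmpty_iff] at hP
    obtain ⟨p0⟩ := hP
    have h1 : (vectorSpan ℝ (Set.range φ)).map (LinearMap.inl ℝ (EuclideanSpace ℝ (Fin m)) ℝ) <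
        F := by
      refine lt_of_le_of_ne ?_ fun heq => ?_
      · rw [Submodule.map_le_iff_le_comap, vectorSpan_def, Submodule.span_le]
        rintro _ ⟨_, ⟨p, rfl⟩, _, ⟨q, rfl⟩, rfl⟩
        have h2 := F.sub_mem (hu p) (hu q)
        have h3 : u p - u q = LinearMap.inl ℝ (EuclideanSpace ℝ (Fin m)) ℝ (φ p -ᵥ φ q) := by
          ext1
          · rfl
          · show (1 : ℝ) - 1 = 0
            simp
        rw [h3] at h2
        exact h2
      · have h2 := hu p0
        rw [← heq] at h2
        obtain ⟨x, -, hx⟩ := h2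
        have h3 : (0 : ℝ) = 1 := congrArg Prod.snd hx
        exact zero_ne_one h3
    have h2 := Submodule.finrank_lt_finrank_of_lt h1
    have h3 := (Submodule.equivMapOfInjective
      (LinearMap.inl ℝ (EuclideanSpace ℝ (Fin m)) ℝ) LinearMap.inl_injective
      (vectorSpan ℝ (Set.range φ))).finrank_eq
    omega

theorem lower {n : ℕ} (hn : 1 ≤ n) (hL : IsConfiguration n L) (h : IsRepresentation L φ ψ) :
    2 ≤ finrank ℝ (vectorSpan ℝ (Set.range φ)) := by
  classical
  have hcard : 0 < Fintype.card P := by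
    have := hL.card_points
    omega
  obtain ⟨p⟩ := Fintype.card_pos_iff.1 hcard
  have h1 := hL.card_pencil p
  obtain ⟨a, b, c, hab, -, -, h2⟩ := Finset.card_eq_three.1 h1
  have ha : a ∈ L.filter (p ∈ ·) := by rw [h2]; simp
  have hb : b ∈ L.filter (p ∈ ·) := by rw [h2]; simp
  rw [Finset.mem_filter] at ha hb
  have other : ∀ e ∈ L, ∃ q ∈ e, q ≠ p := by
    intro e he
    by_contra hc
    push Not at hc
    have := Finset.card_le_card (show e ⊆ {p} from fun y hy => Finset.mem_singleton.2 (hc y hy))
    rw [hL.card_line e he, Finset.card_singleton] at this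
    omega
  obtain ⟨q, hq, hqp⟩ := other a ha.1
  obtain ⟨s, hs, hsp⟩ := other b hb.1
  have hsa : s ∉ a := fun hsa => hab (hL.two_points p s hsp.symm a ha.1 b hb.1 ha.2 hsa hb.2 hs)
  by_contra hc
  have hv1 : φ q - φ p ∈ vectorSpan ℝ (Set.range φ) :=
    vsub_mem_vectorSpan ℝ (Set.mem_range_self q) (Set.mem_range_self p)
  have hv2 : φ s - φ p ∈ vectorSpan ℝ (Set.range φ) :=
    vsub_mem_vectorSpan ℝ (Set.mem_range_self s) (Set.mem_range_self p)
  have h4 : (⟨φ q - φ p, hv1⟩ : vectorSpan ℝ (Set.range φ)) ≠ 0 := by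
    intro h5
    have h6 : φ q - φ p = 0 := congrArg Subtype.val h5
    exact hqp (h.injective (sub_eq_zero.1 h6))
  have h5 : finrank ℝ (vectorSpan ℝ (Set.range φ)) = 1 := by
    have : 0 < finrank ℝ (vectorSpan ℝ (Set.range φ)) := by
      rw [finrank_pos_iff]
      exact ⟨_, _, h4⟩
    omega
  obtain ⟨t, ht⟩ := (finrank_eq_one_iff_of_nonzero' _ h4).1 h5 ⟨φ s - φ p, hv2⟩
  exact hsa (on_line h ha.1 ha.2 hq t (congrArg Subtype.val ht).symm)

end proof

/-- **Theorem.** Every realizable configuration `(n_3)` with `n ≤ 14` has dimension `2` or `3`. -/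
theorem result (n : ℕ) (hn : 1 ≤ n) (hn14 : n ≤ 14) (P : Type) [Fintype P] [DecidableEq P]
    (L : Finset (Finset P)) (hL : IsConfiguration n L) (hr : Realizable L) :
    ∃ d, HasDimension L d ∧ (d = 2 ∨ d = 3) := by
  have key : ∀ d ∈ dimensions L, d = 2 ∨ d = 3 := by
    rintro d ⟨m, φ, ψ, h, rfl⟩
    rw [direction_affineSpan]
    have h1 := upper hn14 hL h
    have h2 := lower hn hL h
    omega
  obtain ⟨m, φ, ψ, h⟩ := hr
  by_cases h3 : 3 ∈ dimensions L
  · refine ⟨3, ⟨h3, fun d hd => ?_⟩, Or.inr rfl⟩
    rcases key d hd with rfl | rfl <;> omega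
  · have h4 : ∀ d ∈ dimensions L, d = 2 := by
      intro d hd
      rcases key d hd with rfl | rfl
      · rfl
      · exact absurd hd h3
    refine ⟨2, ⟨?_, fun d hd => (h4 d hd).le⟩, Or.inl rfl⟩
    have h5 : finrank ℝ (affineSpan ℝ (Set.range φ)).direction ∈ dimensions L :=
      ⟨m, φ, ψ, h, rfl⟩
    rw [← h4 _ h5]
    exact h5

end Pool.Agent.Results.MP_ac1762_co.DimensionTwoOrThree
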